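import Pool.Agent.Helper10.AL.AsmG
import Pool.Agent.Helper10.AL.Det

/-!
For large degree `n` and every subinterval `[a, b]` of `[-1, 1]`, every polynomial of largest arc
length on `[a, b]` is a Chebyshev or a Zolotarev polynomial, given by an explicit formula with one
free parameter, and the parameter satisfies an explicit equation.
-/

set_option autoImplicit false

namespace Pool.Agent.Results.MP_837341_an.AllWindows

open Polynomial Set Real MeasureTheory intervalIntegral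

noncomputable section

/-- Arc length of the graph of `P` over `[a, b]`. -/
def arc (a b : ℝ) (P : ℝ[X]) : ℝ := ∫ x in a..b, √(1 + (P.derivative.eval x) ^ 2)

/-- `P` is bounded by `1` in absolute value on `[-1, 1]`. -/
def Bdd (P : ℝ[X]) : Prop := ∀ x ∈ Icc (-1 : ℝ) 1, |P.eval x| ≤ 1

/-- `P` is extremal: of degree at most `n`, bounded by `1` on `[-1,1]`, and its arc length over
`[a, b]` is the largest possible. -/
structure Ext (n : ℕ) (a b : ℝ) (P : ℝ[X]) : Prop where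
  deg : P.degree ≤ n
  bdd : Bdd P
  max : ∀ Q : ℝ[X], Q.degree ≤ n → Bdd Q → arc a b Q ≤ arc a b P

/-- the first variation of the arc length over `[a, b]` in the direction `w P'`, where `w'` is the
derivative of `w` -/
def Bal (a b : ℝ) (P : ℝ[X]) (w w' : ℝ → ℝ) : ℝ :=
  w b * √(1 + P.derivative.eval b ^ 2) - w a * √(1 + P.derivative.eval a ^ 2) -
    ∫ x in a..b, w' x / √(1 + P.derivative.eval x ^ 2)

/-- the speed of the phase -/
def omg (n : ℕ) (c s p t : ℝ) : ℝ := n / √(1 + (s / |c - cos t| + p / (c - cos t) ^ 2))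

/-- the Chebyshev polynomial -/
def DetT (n : ℕ) (a b : ℝ) (P : ℝ[X]) : Prop :=
  (P = Chebyshev.T ℝ n ∨ P = -Chebyshev.T ℝ n) ∧
    0 ≤ Bal a b P (fun x => 1 + x) (fun _ => 1) ∧ Bal a b P (fun x => 1 - x) (fun _ => -1) ≤ 0

/-- stretched Chebyshev polynomials -/
def DetS (n : ℕ) (a b : ℝ) (P : ℝ[X]) : Prop := ∃ s : ℝ, 0 < s ∧
  (P = (Chebyshev.T ℝ n).comp (C (2 / (2 + s)) * X - C (s / (2 + s))) ∨
    P = -(Chebyshev.T ℝ n).comp (C (2 / (2 + s)) * X - C (s / (2 + s)))) ∧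
  Bal a b P (fun x => 1 + x) (fun _ => 1) = 0

/-- stretched Chebyshev polynomials -/
def DetS' (n : ℕ) (a b : ℝ) (P : ℝ[X]) : Prop := ∃ s : ℝ, 0 < s ∧
  (P = (Chebyshev.T ℝ n).comp (C (2 / (2 + s)) * X + C (s / (2 + s))) ∨
    P = -(Chebyshev.T ℝ n).comp (C (2 / (2 + s)) * X + C (s / (2 + s)))) ∧
  Bal a b P (fun x => 1 - x) (fun _ => -1) = 0

/-- the Chebyshev polynomial of degree `n - 1` -/
def DetU (n : ℕ) (a b : ℝ) (P : ℝ[X]) : Prop :=
  (P = Chebyshev.T ℝ ((n : ℤ) - 1) ∨ P = -Chebyshev.T ℝ ((n : ℤ) - 1)) ∧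
    Bal a b P (fun x => 1 - x ^ 2) (fun x => -2 * x) = 0

/-- Zolotarev polynomials -/
def DetZ (n : ℕ) (a b : ℝ) (P : ℝ[X]) : Prop := ∃ c s p σ : ℝ, 1 < |c| ∧ 0 ≤ s ∧ 0 ≤ p ∧
  p ≤ s ^ 2 / 4 ∧ (σ = 1 ∨ σ = -1) ∧ P.derivative.eval c = 0 ∧
  (∫ t in (0 : ℝ)..π, omg n c s p t) = ((n : ℝ) - 1) * π ∧
  (∀ θ ∈ Icc 0 π, P.eval (cos θ) = σ * cos (∫ t in (0 : ℝ)..θ, omg n c s p t)) ∧
  Bal a b P (fun x => (1 - x ^ 2) / (c - x)) (fun x => (x ^ 2 - 2 * c * x + 1) / (c - x) ^ 2) = 0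

/-- the extremal polynomials and the equation of the parameter -/
def Det (n : ℕ) (a b : ℝ) (P : ℝ[X]) : Prop :=
  DetT n a b P ∨ DetS n a b P ∨ DetS' n a b P ∨ DetU n a b P ∨ DetZ n a b P

end

theorem result : ∃ n0 : ℕ, ∀ n : ℕ, n0 ≤ n → ∀ a b : ℝ, -1 ≤ a → a < b → b ≤ 1 →
    ∀ P : ℝ[X], Ext n a b P →
      (∃ x : Fin n → ℝ, StrictMono x ∧ (∀ i, x i ∈ Set.Icc (-1 : ℝ) 1) ∧
        ((∀ i : Fin n, P.eval (x i) = (-1) ^ (i : ℕ)) ∨
          (∀ i : Fin n, P.eval (x i) = -(-1) ^ (i : ℕ)))) ∧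
      (∀ c ∈ Set.Ioo (-1 : ℝ) 1, P.derivative.eval c = 0 →
        |P.eval c| = 1 ∧ P.derivative.derivative.eval c ≠ 0) ∧
      (∀ z : ℂ, aeval z P.derivative = 0 → z.im = 0) ∧
      (∀ y1 y2 : ℝ, 1 ≤ |y1| → 1 ≤ |y2| → ¬ (X - C y1) * (X - C y2) ∣ P.derivative) ∧
      Det n a b P := by
  obtain ⟨n0, h⟩ := Helper10.AL.AsmG.hMainG
  refine ⟨max n0 3, fun n hn a b ha hab hb P hP' => ?_⟩
  have hP : Helper40.AS.Ext n a b P := ⟨hP'.deg, hP'.bdd, hP'.max⟩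
  have h1 := h n ((le_max_left _ _).trans hn) a b P ha hab hb hP
  exact ⟨h1.1, h1.2.1, h1.2.2.1, h1.2.2.2, Helper10.AL.det Helper10.AL.AsmG.hP1
    Helper10.AL.AsmG.hP2 ((le_max_right _ _).trans hn) ha hab hb hP h1.1⟩

end Pool.Agent.Results.MP_837341_an.AllWindows
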