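import Pool.Agent.Helper40.AS.Many

/-!
Structure of the critical points of the polynomials of largest arc length on an arbitrary
subinterval `[a, b]` of `[-1, 1]`.
-/

set_option autoImplicit false

namespace Pool.Agent.Results.MP_837341_an.CriticalPointStructure

open Polynomial Helper40.AS

theorem result (n : ℕ) (hn : 1 ≤ n) (a b : ℝ) (ha : -1 ≤ a) (hab : a < b) (hb : b ≤ 1)
    (P : ℝ[X]) (hP : Ext n a b P) :
    (∀ c : ℝ, (-1 < c ∧ c ≤ a) ∨ (b ≤ c ∧ c < 1) → P.derivative.eval c = 0 →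
      |P.eval c| = 1 ∧ P.derivative.derivative.eval c ≠ 0) ∧
    (|P.eval (-1)| = 1 ∨ |P.eval 1| = 1) ∧
    (|P.eval (-1)| ≠ 1 ∨ |P.eval 1| ≠ 1 → P.natDegree = n ∧
      ∀ z : ℂ, aeval z P.derivative = 0 → Disc a b z ∨ Contact P z) ∧
    (∀ N : ℕ, b - a ≤ N * (1 + a) → b - a ≤ N * (1 - b) →
      ∃ s : Multiset ℂ, s ≤ P.derivative.aroots ℂ ∧ (∀ z ∈ s, Lens a b z ∨ Contact P z) ∧
        n + 2 ≤ Multiset.card s + 4 * N) := by
  classical
  refine ⟨?_, ends hP hn hab, fun hf => ⟨free_natDegree hP hn hab hf, fun z hz => ?_⟩, ?_⟩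
  · rintro c (⟨h1, h2⟩ | ⟨h1, h2⟩) hc
    · exact left_contact hP hn hab hb h1 h2 hc
    · exact right_contact hP hn hab ha h2 h1 hc
  · rcases hf with hf | hf
    · exact free_all hP hn ha hab hb hf hz
    · exact free_all' hP hn ha hab hb hf hz
  · intro N hN hN'
    have h0 : 0 < b - a := by linarith
    have hNp : (0 : ℝ) ≤ N := Nat.cast_nonneg N
    have ha' : -1 < a := by
      by_contra hcon
      push Not at hcon
      nlinarith
    have hb' : b < 1 := by
      by_contra hcon
      push Not at hcon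
      nlinarith
    refine ⟨(P.derivative.aroots ℂ).filter fun z => Lens a b z ∨ Contact P z,
      Multiset.filter_le _ _, fun z hz => (Multiset.mem_filter.1 hz).2, ?_⟩
    convert count_many hP hn ha' hab hb' hN hN'

end Pool.Agent.Results.MP_837341_an.CriticalPointStructure
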