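import Pool.Agent.Helper10.AL.AsmU

/-!
The Chebyshev polynomial is, up to sign, the unique polynomial of largest arc length on every
interval with an end point at `1` or `-1`, for all sufficiently large degrees, and for all degrees
if the interval has length at most `1` or is the whole interval `[-1, 1]`.
-/

set_option autoImplicit false

namespace Pool.Agent.Results.MP_837341_an.EndpointWindows

open Polynomial

theorem result : ∃ n0 : ℕ, ∀ (n : ℕ) (a b : ℝ), 1 ≤ n → -1 ≤ a → a < b → b ≤ 1 →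
    (a = -1 ∨ b = 1) → (b - a ≤ 1 ∨ b - a = 2 ∨ n0 ≤ n) →
    ∀ P : ℝ[X], P.degree ≤ n → (∀ x ∈ Set.Icc (-1 : ℝ) 1, |P.eval x| ≤ 1) →
      (∫ x in a..b, √(1 + (P.derivative.eval x) ^ 2)) ≤
          (∫ x in a..b, √(1 + ((Chebyshev.T ℝ n).derivative.eval x) ^ 2)) ∧
        ((∫ x in a..b, √(1 + (P.derivative.eval x) ^ 2)) =
            (∫ x in a..b, √(1 + ((Chebyshev.T ℝ n).derivative.eval x) ^ 2)) ↔
          P = Chebyshev.T ℝ n ∨ P = -Chebyshev.T ℝ n) := by
  obtain ⟨n0, h0⟩ := Helper10.AL.AsmU.hMainU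
  have hX := Helper10.AL.AsmU.hX0
  have hH := Helper10.AL.AsmU.hHalf
  refine ⟨n0, fun n a b hn ha hab hb hend hcase P hdeg hP => ?_⟩
  have key : ∀ Q : ℝ[X], Helper40.AS.Ext n a b Q ↔
      Q = Chebyshev.T ℝ n ∨ Q = -Chebyshev.T ℝ n := by
    by_cases h1 : n0 ≤ n
    · intro Q
      refine h0 n h1 a b Q ?_
      rcases hend with h | h
      · right; exact ⟨h, by linarith, hb⟩
      · left; exact ⟨ha, by linarith, h⟩
    · have h2 : b - a ≤ 1 ∨ b - a = 2 := by
        rcases hcase with h | h | h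
        · exact Or.inl h
        · exact Or.inr h
        · exact absurd h h1
      have hc : (0 ≤ a ∧ a < 1 ∧ b = 1) ∨ (a = -1 ∧ -1 < b ∧ b ≤ 0) ∨ (a = -1 ∧ b = 1) := by
        rcases hend with h | h
        · rcases h2 with h2 | h2
          · right; left; exact ⟨h, by linarith, by linarith⟩
          · right; right; exact ⟨h, by linarith⟩
        · rcases h2 with h2 | h2
          · left; exact ⟨by linarith, by linarith, h⟩
          · right; right; exact ⟨by linarith, h⟩
      have hT : ∀ Q : ℝ[X], Helper40.AS.Ext n a b Q →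
          Q = Chebyshev.T ℝ n ∨ Q = -Chebyshev.T ℝ n := fun Q hQ => (hH n a b Q hn hc hQ).1
      obtain ⟨R, hR⟩ := hX.1 n a b hab.le
      have hE : Helper40.AS.Ext n a b (Chebyshev.T ℝ n) := by
        rcases hT R hR with h | h
        · rw [← h]; exact hR
        · have := hX.2.1 n a b R hR
          rwa [h, neg_neg] at this
      intro Q
      refine ⟨hT Q, fun h => ?_⟩
      rcases h with rfl | rfl
      · exact hE
      · exact hX.2.1 n a b _ hE
  have hE : Helper40.AS.Ext n a b (Chebyshev.T ℝ n) := (key _).2 (Or.inl rfl)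
  have hle : Helper40.AS.arc a b P ≤ Helper40.AS.arc a b (Chebyshev.T ℝ n) := hE.max P hdeg hP
  refine ⟨hle, fun h => ?_, fun h => ?_⟩
  · refine (key P).1 ⟨hdeg, hP, fun Q hQ1 hQ2 => ?_⟩
    have h3 := hE.max Q hQ1 hQ2
    have h4 : Helper40.AS.arc a b P = Helper40.AS.arc a b (Chebyshev.T ℝ n) := h
    rw [h4]
    exact h3
  · have hEP := (key P).2 h
    have h3 : Helper40.AS.arc a b (Chebyshev.T ℝ n) ≤ Helper40.AS.arc a b P :=
      hEP.max _ hE.deg hE.bdd
    exact le_antisymm hle h3

end Pool.Agent.Results.MP_837341_an.EndpointWindows
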