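import Pool.Agent.Helper10.AL.CrispI

/-!
The polynomials of largest arc length over `[a, b]`, `-1 + δ ≤ a < b ≤ 1 - δ`, for large degree:
asymptotic form, and a criterion for the Chebyshev polynomials being the only ones.
-/

set_option autoImplicit false

namespace Pool.Agent.Results.MP_837341_an.InteriorWindows

open Polynomial Set Real

/-- Arc length of the graph of `P` over `[a, b]`. -/
noncomputable def arc (a b : ℝ) (P : ℝ[X]) : ℝ := ∫ x in a..b, √(1 + (P.derivative.eval x) ^ 2)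

/-- `P` is bounded by `1` in absolute value on `[-1, 1]`. -/
def Bdd (P : ℝ[X]) : Prop := ∀ x ∈ Icc (-1 : ℝ) 1, |P.eval x| ≤ 1

/-- `P` is extremal: of degree at most `n`, bounded by `1` on `[-1,1]`, and its arc length over
`[a, b]` is the largest possible. -/
structure Ext (n : ℕ) (a b : ℝ) (P : ℝ[X]) : Prop where
  deg : P.degree ≤ n
  bdd : Bdd P
  max : ∀ Q : ℝ[X], Q.degree ≤ n → Bdd Q → arc a b Q ≤ arc a b P

/-- total variation of the cosine over `[0, x]` -/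
noncomputable def VC (x : ℝ) : ℝ := ∫ s in (0 : ℝ)..x, |sin s|

/-- the phase shift -/
noncomputable def mu (ρ θ : ℝ) : ℝ :=
  if ρ = 1 then π else 2 * arctan ((1 + ρ) / (1 - ρ) * tan (θ / 2))

/-- the limit functional -/
noncomputable def Jv (n : ℕ) (ρ a b : ℝ) : ℝ :=
  VC (n * arccos a - mu ρ (arccos a)) - VC (n * arccos b - mu ρ (arccos b))

theorem result (δ ε : ℝ) (hδ : 0 < δ) (hε : 0 < ε) :
    ∃ n0 : ℕ, ∀ n : ℕ, n0 ≤ n → ∀ a b : ℝ, -1 + δ ≤ a → a < b → b ≤ 1 - δ →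
      (∀ P : ℝ[X], Ext n a b P → ∃ ρ ∈ Icc (-1 : ℝ) 1,
        (∀ ρ' ∈ Icc (-1 : ℝ) 1, Jv n ρ' a b ≤ Jv n ρ a b + ε) ∧
        |arc a b P - Jv n ρ a b| ≤ ε ∧
        ∃ σ : ℝ, (σ = 1 ∨ σ = -1) ∧ ∀ x ∈ Icc (-1 + δ) (1 - δ),
          |P.eval x - σ * cos (n * arccos x - mu ρ (arccos x))| ≤ ε) ∧
      ((∀ ρ ∈ Icc (-1 : ℝ) 1, Jv n ρ a b + ε * (1 - |ρ|) ≤ Jv n 1 a b) →
        ∀ P : ℝ[X], Ext n a b P ↔ P = Chebyshev.T ℝ n ∨ P = -Chebyshev.T ℝ n) := by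
  obtain ⟨n0, h0⟩ := Pool.Agent.Helper10.AL.CrispI.result δ ε hδ hε
  refine ⟨n0, fun n hn a b ha hab hb => ?_⟩
  obtain ⟨h1, h2⟩ := h0 n hn a b ha hab hb
  refine ⟨fun P hP => h1 P ⟨hP.deg, hP.bdd, hP.max⟩, fun hJ P =>
    ⟨fun hP => (h2 hJ P).1 ⟨hP.deg, hP.bdd, hP.max⟩, fun hP => ?_⟩⟩
  have h := (h2 hJ P).2 hP
  exact ⟨h.deg, h.bdd, h.max⟩

end Pool.Agent.Results.MP_837341_an.InteriorWindows
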